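import Pool.Agent.KOL.Fin
import Pool.Agent.KOL.BarF
import Pool.Agent.KOL.MuF
import Pool.Agent.KOL.Uniq
import Pool.Agent.KOL.Cmp

/-!
# Kołodziej's problem: the bounded subsolution theorem fails on compact Kähler manifolds

The compact Kähler manifold is the complex torus `X = ℂ³ / ℤ[i]³` with the flat Kähler form
`ω = dd^c |z|²`. Functions and measures on `X` are the periodic functions and measures on `ℂ³`.

* `KOL.Psh U u`: `u` is plurisubharmonic on the open set `U` (upper semicontinuous, with the submean
  inequality on all closed complex discs in `U`).
* `KOL.OmegaPsh φ`: `φ` is a bounded `ω`-plurisubharmonic function on `X`.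
* `KOL.IsMA U u ν`: the definition of Bedford and Taylor, `T₁ = dd^c u`, `T₂ = dd^c (u T₁)`,
  `ν = dd^c (u T₂)` on `U`, where `T₁` and `T₂` are positive currents with measure coefficients. By the
  theorem of Bedford and Taylor this holds for exactly one measure `ν` on `U` if `u` is a bounded
  plurisubharmonic function; for `U = ℂ³` this is `existsUnique_MA` below. The normalisation is
  `ν = det (∂² u / ∂z_j ∂z̄_k)` times the Lebesgue measure for smooth `u`. With `dd^c = (i/π) ∂∂̄` one
  has `(dd^c u)³ = (48 / π³) ν`, and the volume of `X` is `V = ∫ ω³ = 48 / π³`. So
  `KOL.IsMA Set.univ (fun z => φ z + KOL.sq z) μ` says `μ = V⁻¹ (ω + dd^c φ)³ = MA(φ)`.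
* `KOL.TorusProb μ`: `μ` is a probability measure on `X`.
* `KOL.LocDom μ`: every point has an open neighbourhood `U` with a bounded plurisubharmonic function `u`
  on `U` such that `μ ≤ ν` on `U`, `ν` the measure of `u` normalised as above; so `μ ≤ (dd^c u)³` on `U`.

The theorem `result` is the negated form of the question: `μ` is locally dominated by Monge-Ampère
measures of bounded plurisubharmonic functions, but it is not the Monge-Ampère measure of a bounded
`ω`-plurisubharmonic function.

Idea of the proof. Near the curve `F = {z₂ = z₃ = 0}` the measure `μ` consists of bumps around the tori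
`Re z₁ = x_a`, `|z₂| = exp (-q₁(a))`, `|z₃| = exp (-q₂(a))`, where `a` runs through the vertices of
deeper and deeper binary trees, embedded in the plane of the `(q₁, q₂)` by the order dimension two of
binary trees. A vertex stands for one toppling of a random walk which moves the mass of a discrete
convex function; the total toppling in each tree is at least a constant, while the budget of the
subsolution (a supremum of separable plurisubharmonic functions) is only used on one branch at a time,
so it tends to zero. The comparison principle with separable barriers shows that a bounded solution `φ`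
would have to drop by a fixed amount in each tree.
-/

set_option autoImplicit false

namespace Pool.Agent.Results.MP_a67f52_an.BoundedSubsolutions

open MeasureTheory KOL

/-- The Monge-Ampère measure of a bounded `ω`-plurisubharmonic function exists and is unique. -/
theorem existsUnique_MA (φ : C3 → ℝ) (hφ : OmegaPsh φ) :
    ∃! ν : Measure C3, IsMA Set.univ (fun z => φ z + KOL.sq z) ν :=
  existsUnique_isMA hφ.psh (locBdd_omega hφ)

/-- There is a probability measure on the torus which is locally dominated by Monge-Ampère measures of
bounded plurisubharmonic functions, but is not the Monge-Ampère measure of any bounded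
`ω`-plurisubharmonic function. -/
theorem result : ∃ μ : Measure C3, TorusProb μ ∧ LocDom μ ∧
    ∀ φ : C3 → ℝ, OmegaPsh φ → ¬ IsMA Set.univ (fun z => φ z + KOL.sq z) μ :=
  final (bar_of fun _ hu hb _ hν _ hH _ hO hOb h0 _ hK hKO _ hd hlt =>
    KOL.cmp hu hb hν hH hO hOb h0 hK hKO hd hlt) mu_stmt

end Pool.Agent.Results.MP_a67f52_an.BoundedSubsolutions
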